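import Pool.Agent.Work.MP_14c213_gt.A.Main
import Pool.Agent.Work.MP_14c213_gt.B.Main

/-!
There are closed hyperbolic manifolds (of dimension three) which are isospectral on `p`-forms for
every `p` but which are not strongly isospectral.  The definitions are in
`Pool.Agent.Work.MP_14c213_gt.Defs`.
-/

namespace Pool.Agent.Results.MP_14c213_gt.IsoNotStrong

open Pool.Agent.Work.MP_14c213_gt

/-- Two closed hyperbolic manifolds of dimension three which are `p`-isospectral for all `p`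
but not strongly isospectral. -/
theorem result : ∃ Γ₁ Γ₂ : Subgroup (Mat 3)ˣ,
    IsClosedHyp 3 Γ₁ ∧ IsClosedHyp 3 Γ₂ ∧ (∀ p ≤ 3, PIsospectral p Γ₁ Γ₂) ∧
      ¬ StronglyIsospectral Γ₁ Γ₂ := by
  obtain ⟨Γ₁, Γ₂, h⟩ := arithmetic
  obtain ⟨a, b, c, d⟩ := analysis h
  exact ⟨Γ₁, Γ₂, a, b, c, d⟩

end Pool.Agent.Results.MP_14c213_gt.IsoNotStrong
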